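import Pool.Agent.Helper46.RO.Base

/-!
# Project RO: a global fixed end gives a lag
-/

namespace Pool.Agent.Helper26.RO

open Pool.Agent.Helper46.RO

universe u

theorem E6 : GoalE6.{u} := by
  intro L _ X χ hX hχ C hC hfix
  obtain ⟨p, hp, hCp⟩ := hC.1 0
  have hp0 : p ∈ C 0 := by
    rw [hCp]
    exact ⟨hp, Conn.refl _⟩
  obtain ⟨s1, h1, h2, h3⟩ := exists_level hX χ 1 p
  set s0 : ℝ := min s1 0 with hs0
  have hs01 : s0 ≤ s1 := min_le_left _ _
  have hs00 : s0 ≤ 0 := min_le_right _ _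
  have hps0 : p ∈ C s0 := hC.2 s0 0 hs00 hp0
  have hone : (1 : L) ∈ C s0 := by
    obtain ⟨q, hq, hCq⟩ := hC.1 s0
    rw [hCq] at hps0 ⊢
    refine ⟨?_, hps0.2.trans ?_⟩
    · change s0 ≤ χ 1
      rw [hχ.one]
      exact hs00
    · refine (h3.symm hX).mono ?_
      intro k hk
      exact hs01.trans (show s1 ≤ χ k from hk)
  have hg : ∀ g : L, g ∈ C (s0 + χ g) := by
    intro g
    have e : actF χ g C (s0 + χ g) = C (s0 + χ g) := by rw [hfix g]
    rw [← e]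
    change g⁻¹ * g ∈ C (s0 + χ g - χ g)
    rw [inv_mul_cancel, add_sub_cancel_right]
    exact hone
  refine ⟨-s0, fun s g hgs h hhs => ?_⟩
  have hgs' : s ≤ χ g := hgs
  have hhs' : s ≤ χ h := hhs
  have e1 : s - -s0 = s0 + s := by ring
  rw [e1]
  have m1 : g ∈ C (s0 + s) := hC.2 _ _ (by linarith) (hg g)
  have m2 : h ∈ C (s0 + s) := hC.2 _ _ (by linarith) (hg h)
  obtain ⟨k, hk, hCk⟩ := hC.1 (s0 + s)
  rw [hCk] at m1 m2
  exact (m1.2.symm hX).trans m2.2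

end Pool.Agent.Helper26.RO
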